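import Pool.Agent.Helper36.Curl.V2
import Pool.Agent.Helper94.Curl.BlowGeo
import Pool.Agent.Helper94.Curl.Geo2
import Pool.Agent.Helper42.Curl.WC

open MeasureTheory Set Filter Topology Metric
open scoped ContDiff RealInnerProductSpace
open Pool.Agent.Helper38.Curl
open Pool.Agent.Helper94.Curl (blow_geo limit_null sd_pos_iff)
open Pool.Agent.Helper42.Curl (weak_compact)

namespace Pool.Agent.Helper36.Curl

theorem nonempty_of_crit {Ω : Set E} {u a : E → E} {Λ : ℝ} (hc : Crit Ω u a Λ) : Ω.Nonempty := by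
  rw [nonempty_iff_ne_empty]
  rintro rfl
  have := hc.vol
  simp at this

theorem nonempty_compl_of_crit {Ω : Set E} {u a : E → E} {Λ : ℝ} (hc : Crit Ω u a Λ) :
    Ωᶜ.Nonempty := by
  rw [nonempty_compl]
  rintro rfl
  exact NormedSpace.unbounded_univ ℝ E hc.bdd

/-- The growth bound for blow-ups on fixed balls. -/
theorem sqOn_bl_le {Ω : Set E} {u : E → E} {CU : ℝ} (hG : Growth Ω u CU) {x : ℕ → E}
    (hx : ∀ n, x n ∈ frontier Ω) {s : ℕ → ℝ} (hs : ∀ n, 0 < s n) (hs0 : Tendsto s atTop (𝓝 0))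
    {R : ℝ} (hR : 0 < R) : ∀ᶠ n in atTop, sqOn (ball 0 R) (bl u (x n) (s n)) ≤ CU * R ^ 3 := by
  have h1 : ∀ᶠ n in atTop, s n < R⁻¹ := hs0.eventually_lt_const (inv_pos.2 hR)
  filter_upwards [h1] with n hn
  have hsn := hs n
  have h2 : s n * R ≤ 1 := by
    have := mul_le_mul_of_nonneg_right hn.le hR.le
    rwa [inv_mul_cancel₀ hR.ne'] at this
  have h3 := hG (x n) (hx n) (s n * R) (by positivity) h2
  rw [sqOn_bl u (x n) 0 hsn, smul_zero, add_zero]
  have h4 : 0 < s n ^ 3 := by positivity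
  rw [inv_mul_le_iff₀ h4]
  calc _ ≤ _ := h3
    _ = _ := by ring

theorem bl_exists {Ω : Set E} {u a : E → E} {Λ : ℝ} (hc : Crit Ω u a Λ) {r₀ c₀ CU : ℝ}
    {F : Finset E} (hT : Trans Ω r₀ c₀ F) (hG : Growth Ω u CU) {x : ℕ → E}
    (hx : ∀ n, x n ∈ frontier Ω) {s : ℕ → ℝ} (hs : ∀ n, 0 < s n) (hs0 : Tendsto s atTop (𝓝 0)) :
    ∃ σ : ℕ → ℕ, StrictMono σ ∧ ∃ (ν : E) (g : E → ℝ) (V : E → E),
      Bl Ω u r₀ c₀ (x ∘ σ) (s ∘ σ) ν g V := by
  obtain ⟨σ₁, hσ₁, ν, g, hν, hl, g0, hconv, htr, htrn⟩ :=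
    blow_geo hc.isOpen hc.bdd (nonempty_of_crit hc) hT hx hs hs0
  have hs1 : Tendsto (fun n => s (σ₁ n)) atTop (𝓝 0) := hs0.comp hσ₁.tendsto_atTop
  obtain ⟨σ₂, hσ₂, V, hV, hwk⟩ := weak_compact (v := fun n => bl u (x (σ₁ n)) (s (σ₁ n)))
    (fun n => bl_memLp hc.pot.memLp₂ _ (hs _)) (by
      intro R
      have h1 := sqOn_bl_le hG (fun n => hx (σ₁ n)) (fun n => hs (σ₁ n)) hs1
        (R := max R 1) (by positivity)
      refine ⟨CU * (max R 1) ^ 3, ?_⟩
      filter_upwards [h1] with n hn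
      refine le_trans (sqOn_mono (ball_subset_ball (le_max_left _ _)) ?_) hn
      exact (bl_memLp hc.pot.memLp₂ _ (hs _)).restrict _)
  refine ⟨σ₁ ∘ σ₂, hσ₁.comp hσ₂, ν, g, V, ?_⟩
  exact
    { mem := fun n => hx _
      spos := fun n => hs _
      slim := hs1.comp hσ₂.tendsto_atTop
      nu := hν
      lip := hl
      g0 := g0
      conv := fun R U hU => hσ₂.tendsto_atTop.eventually (hconv R U hU)
      trans := htr
      transn := fun n => htrn (σ₂ n)
      loc := hV
      wk := hwk }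

/-- `V` is square integrable on bounded sets. -/
theorem loc_memLp {V : E → E} (h : ∀ R, MemLp V 2 (volume.restrict (ball 0 R))) {S : Set E}
    (hb : Bornology.IsBounded S) : MemLp V 2 (volume.restrict S) := by
  obtain ⟨R, hR⟩ := hb.subset_ball 0
  exact (h R).mono_measure (Measure.restrict_mono hR le_rfl)

theorem vanish {Ω : Set E} {u a : E → E} {Λ : ℝ} (hc : Crit Ω u a Λ) {r₀ c₀ : ℝ}
    (hc₀ : 0 < c₀) {x : ℕ → E} {s : ℕ → ℝ} {ν : E} {g : E → ℝ} {V : E → E}
    (h : Bl Ω u r₀ c₀ x s ν g V) : ∀ᵐ z, g z ≤ 0 → V z = 0 := by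
  have hgc : Continuous g := h.lip.continuous
  -- the compact exhaustion of `{g < 0}`
  have key : ∀ k : ℕ, ∀ᵐ z, z ∈ closedBall (0 : E) k ∩ {z | g z ≤ -(1 / ((k : ℝ) + 1))} →
      V z = 0 := by
    intro k
    set K : Set E := closedBall (0 : E) k ∩ {z | g z ≤ -(1 / ((k : ℝ) + 1))} with hK
    have hKm : MeasurableSet K :=
      (isClosed_closedBall.inter (isClosed_le hgc continuous_const)).measurableSet
    have hKb : Bornology.IsBounded K := isBounded_closedBall.subset inter_subset_left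
    have hVK : MemLp V 2 (volume.restrict K) := loc_memLp h.loc hKb
    have hφ : MemLp (K.indicator V) 2 := memLp_ind hKm hVK
    have hφb : ∃ R, VanOff (closedBall 0 R) (K.indicator V) :=
      ⟨k, (vanOff_ind K V).mono inter_subset_left⟩
    have hlim := h.wk _ hφ hφb
    have hk0 : (0 : ℝ) < 1 / ((k : ℝ) + 1) := by positivity
    have hev : ∀ᶠ n in atTop, ip (bl u (x n) (s n)) (K.indicator V) = 0 := by
      have h1 := Metric.tendstoUniformlyOn_iff.1 (h.conv k) _ hk0
      filter_upwards [h1] with n hn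
      unfold ip
      apply integral_eq_zero_of_ae
      refine Eventually.of_forall fun z => ?_
      by_cases hz : z ∈ K
      · have h2 := hn z hz.1
        have h3 : g z ≤ -(1 / ((k : ℝ) + 1)) := hz.2
        rw [Real.dist_eq] at h2
        have h4 : sd Ω (x n + s n • z) / s n < 0 := by
          have := (abs_lt.1 h2).1
          linarith
        have h5 : ¬ (0 < sd Ω (x n + s n • z)) := by
          intro hp
          exact absurd (div_pos hp (h.spos n)) (not_lt.2 h4.le)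
        rw [sd_pos_iff hc.isOpen (nonempty_of_crit hc) (nonempty_compl_of_crit hc)] at h5
        have h6 : bl u (x n) (s n) z = 0 := hc.van _ h5
        simp [h6]
      · simp [indicator_of_notMem hz]
    have hzero : ip V (K.indicator V) = 0 :=
      tendsto_nhds_unique hlim ((tendsto_congr' hev).2 tendsto_const_nhds)
    have h7 : ip V (K.indicator V) = sq (K.indicator V) := by
      rw [sq_eq_ip]
      unfold ip
      apply integral_congr_ae
      refine Eventually.of_forall fun z => ?_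
      by_cases hz : z ∈ K
      · simp [hz]
      · simp [hz]
    rw [h7] at hzero
    have h8 : K.indicator V =ᵐ[volume] 0 := by
      have h9 : (fun z => ‖K.indicator V z‖ ^ 2) =ᵐ[volume] 0 :=
        (integral_eq_zero_iff_of_nonneg (fun z => by positivity) (integrable_norm_sq hφ)).1 hzero
      filter_upwards [h9] with z hz
      have : ‖K.indicator V z‖ ^ 2 = 0 := hz
      simpa using this
    filter_upwards [h8] with z hz hzK
    rwa [indicator_of_mem hzK] at hz
  have hnull : ∀ᵐ z, g z ≠ 0 := by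
    have := limit_null hc₀ h.nu h.lip h.trans
    rw [ae_iff]
    simpa using this
  filter_upwards [ae_all_iff.2 key, hnull] with z hz hz0 hle
  have hneg : g z < 0 := lt_of_le_of_ne hle hz0
  obtain ⟨k₁, hk₁⟩ := exists_nat_ge ‖z‖
  obtain ⟨k₂, hk₂⟩ := exists_nat_one_div_lt (neg_pos.2 hneg)
  refine hz (max k₁ k₂) ⟨?_, ?_⟩
  · rw [mem_closedBall_zero_iff]
    refine hk₁.trans ?_
    exact_mod_cast le_max_left _ _
  · rw [Set.mem_ofPred_eq]
    have h1 : (1 : ℝ) / (((max k₁ k₂ : ℕ) : ℝ) + 1) ≤ 1 / ((k₂ : ℝ) + 1) := by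
      apply one_div_le_one_div_of_le (by positivity)
      have : (k₂ : ℝ) ≤ ((max k₁ k₂ : ℕ) : ℝ) := by exact_mod_cast le_max_right _ _
      linarith
    linarith

theorem divFree {Ω : Set E} {u a : E → E} {Λ : ℝ} (hc : Crit Ω u a Λ) {r₀ c₀ : ℝ}
    {x : ℕ → E} {s : ℕ → ℝ} {ν : E} {g : E → ℝ} {V : E → E}
    (h : Bl Ω u r₀ c₀ x s ν g V) (η : E → ℝ) (hη : TestF η) : ∫ z, fderiv ℝ η z (V z) = 0 := by
  have hg := hη.gradient
  obtain ⟨R, hR⟩ := hg.2.isBounded.subset_closedBall 0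
  have h1 := h.wk _ hg.memLp ⟨R, Eventually.of_forall fun z hz =>
    image_eq_zero_of_notMem_tsupport fun hc => hz (hR hc)⟩
  have h2 : ∀ n, ip (bl u (x n) (s n)) (gradient η) = 0 := by
    intro n
    rw [ip_gradient]
    exact bl_divFree (fun η hη => hc.pot.divFree η hη) (x n) (h.spos n) η hη
  simp only [h2] at h1
  rw [← ip_gradient]
  exact tendsto_nhds_unique h1 tendsto_const_nhds

end Pool.Agent.Helper36.Curl
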