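import Pool.Agent.Helper36.Curl.BL1
import Pool.Agent.Helper66.Curl.P1
import Pool.Agent.Helper3.Curl.SC
import Pool.Agent.Helper93.Curl.Harm
import Pool.Agent.Helper40.Curl.HB

open MeasureTheory Set Filter Topology Metric
open scoped ContDiff RealInnerProductSpace
open Pool.Agent.Helper38.Curl
open Pool.Agent.Helper94.Curl (blow_geo limit_null sd_pos_iff)
open Pool.Agent.Helper66.Curl (pot_exists)
open Pool.Agent.Helper3.Curl (strong_conv SNormMol SHodge SHarm)
open Pool.Agent.Helper93.Curl (harm_rep_of)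
open Pool.Agent.Helper40.Curl (hodge_ball)

namespace Pool.Agent.Helper36.Curl

theorem shodge : SHodge := by
  intro z ρ hρ v hv hd α hα h
  exact hodge_ball hρ hv hd hα h

theorem sharm (hM : MolT) : SHarm := by
  intro U hU V hV h
  exact harm_rep_of (fun {v} hv => hM v hv) hU hV h

/-- Near compact subsets of `{g > 0}` the rescaled points lie in `Ω`. -/
theorem eventually_mem {Ω : Set E} {u a : E → E} {Λ : ℝ} (hc : Crit Ω u a Λ) {r₀ c₀ : ℝ}
    {x : ℕ → E} {s : ℕ → ℝ} {ν : E} {g : E → ℝ} {V : E → E}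
    (h : Bl Ω u r₀ c₀ x s ν g V) {K : Set E} (hK : IsCompact K) (hKg : K ⊆ {z | 0 < g z}) :
    ∀ᶠ n in atTop, ∀ z ∈ K, x n + s n • z ∈ Ω := by
  rcases K.eq_empty_or_nonempty with rfl | hne
  · simp
  obtain ⟨z₀, hz₀, hmin⟩ := hK.exists_isMinOn hne h.lip.continuous.continuousOn
  have hm : 0 < g z₀ := hKg hz₀
  obtain ⟨R, hR⟩ := hK.isBounded.subset_closedBall 0
  filter_upwards [Metric.tendstoUniformlyOn_iff.1 (h.conv R) _ hm] with n hn z hz
  have h1 := hn z (hR hz)
  rw [Real.dist_eq] at h1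
  have h2 : g z₀ ≤ g z := hmin hz
  have h3 : 0 < sd Ω (x n + s n • z) / s n := by
    have := (abs_lt.1 h1).2
    linarith
  have h4 : 0 < sd Ω (x n + s n • z) := by
    have := mul_pos h3 (h.spos n)
    rwa [div_mul_cancel₀ _ (h.spos n).ne'] at this
  exact (sd_pos_iff hc.isOpen (nonempty_of_crit hc) (nonempty_compl_of_crit hc)).1 h4

theorem strong (hM : MolT) (NM : SNormMol) {Ω : Set E} {u a : E → E} {Λ : ℝ} (hc : Crit Ω u a Λ) {r₀ c₀ CU : ℝ}
    (hG : Growth Ω u CU) {x : ℕ → E} {s : ℕ → ℝ} {ν : E} {g : E → ℝ} {V : E → E}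
    (h : Bl Ω u r₀ c₀ x s ν g V) {z : E} {ρ : ℝ} (hρ : 0 < ρ)
    (hz : closedBall z ρ ⊆ {z | 0 < g z}) :
    Tendsto (fun n => sqOn (ball z (ρ / 2)) (fun y => bl u (x n) (s n) y - V y)) atTop (𝓝 0) ∧
      WH (ball z ρ) V := by
  have hR : 0 < ‖z‖ + ρ + 1 := by positivity
  have hsub : closedBall z ρ ⊆ ball 0 (‖z‖ + ρ + 1) := by
    intro y hy
    rw [mem_closedBall, dist_eq_norm] at hy
    rw [mem_ball_zero_iff]
    calc ‖y‖ = ‖z + (y - z)‖ := by congr 1; abel
      _ ≤ ‖z‖ + ‖y - z‖ := norm_add_le _ _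
      _ < ‖z‖ + ρ + 1 := by linarith
  have hbl : ∀ n, MemLp (bl u (x n) (s n)) 2 := fun n => bl_memLp hc.pot.memLp₂ _ (h.spos n)
  have hgrow := sqOn_bl_le hG h.mem h.spos h.slim hR
  set C : ℝ := CU * (‖z‖ + ρ + 1) ^ 3 with hCdef
  refine strong_conv NM shodge (sharm hM) hρ hbl
    (fun n η hη => bl_divFree (fun η hη => hc.pot.divFree η hη) (x n) (h.spos n) η hη)
    (C := C) ?_ ?_ (loc_memLp h.loc isBounded_closedBall) h.wk
  · filter_upwards [hgrow] with n hn
    exact (sqOn_mono (ball_subset_closedBall.trans hsub) ((hbl n).restrict _)).trans hn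
  · intro ε hε
    have hlim : Tendsto (fun n => s n * (√C * (2 * ρ)) / Λ) atTop (𝓝 0) := by
      have := (h.slim.mul_const (√C * (2 * ρ))).div_const Λ
      simpa using this
    filter_upwards [hgrow, hlim.eventually_lt_const hε,
      eventually_mem hc h (isCompact_closedBall z ρ) hz] with n hn hsm hmem r hr
    obtain ⟨b, hb, hbv, hbs⟩ := pot_exists hρ hr
    have hv : VanOff {y | x n + s n • y ∈ closure Ω} r :=
      hr.van.mono fun y hy => subset_closure (hmem y hy)
    have h1 := scale_in hM hc hb (x n) (h.spos n) hv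
    have h2 := abs_ip_le_sqOn isClosed_closedBall.measurableSet ((hbl n).restrict _) hb.memLp₁ hbv
    have h3 : √(sqOn (closedBall z ρ) (bl u (x n) (s n))) ≤ √C :=
      Real.sqrt_le_sqrt ((sqOn_mono hsub ((hbl n).restrict _)).trans hn)
    have h4 : √(sq b) ≤ 2 * ρ * √(sq r) := by
      have h5 : sq b ≤ (2 * ρ * √(sq r)) ^ 2 := by
        rw [mul_pow, Real.sq_sqrt (sq_nonneg' r)]
        calc sq b ≤ 4 * ρ ^ 2 * sq r := hbs
          _ = _ := by ring
      exact Real.sqrt_le_iff.2 ⟨by positivity, h5⟩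
    have h6 : |ip (bl u (x n) (s n)) b| ≤ √C * (2 * ρ * √(sq r)) :=
      h2.trans (mul_le_mul h3 h4 (Real.sqrt_nonneg _) (Real.sqrt_nonneg _))
    have h7 : Λ * |ip (bl u (x n) (s n)) r| = s n * |ip (bl u (x n) (s n)) b| := by
      have h1' := congrArg abs h1
      rw [abs_mul, abs_mul, abs_of_pos hc.pos, abs_of_pos (h.spos n)] at h1'
      exact h1'.symm
    have h8 : |ip (bl u (x n) (s n)) r| ≤ s n * (√C * (2 * ρ)) / Λ * √(sq r) := by
      rw [div_mul_eq_mul_div, le_div_iff₀ hc.pos, mul_comm, h7]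
      calc s n * |ip (bl u (x n) (s n)) b| ≤ s n * (√C * (2 * ρ * √(sq r))) :=
            mul_le_mul_of_nonneg_left h6 (h.spos n).le
        _ = _ := by ring
    exact h8.trans (mul_le_mul_of_nonneg_right hsm.le (Real.sqrt_nonneg _))

theorem rep (hM : MolT) (NM : SNormMol) {Ω : Set E} {u a : E → E} {Λ : ℝ} (hc : Crit Ω u a Λ) {r₀ c₀ CU : ℝ}
    (hG : Growth Ω u CU) {x : ℕ → E} {s : ℕ → ℝ} {ν : E} {g : E → ℝ} {V : E → E}
    (h : Bl Ω u r₀ c₀ x s ν g V) : ∃ F, Rep g V F := by
  obtain ⟨F, h1, h2, h3⟩ := harm_rep_of (fun {v} hv => hM v hv) (U := {z | 0 < g z})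
    (isOpen_lt continuous_const h.lip.continuous) (V := V)
    (fun z ρ _ => loc_memLp h.loc isBounded_closedBall)
    (fun z ρ hρ hz => (strong hM NM hc hG h hρ hz).2)
  exact ⟨F, h1, h2, h3⟩

theorem outer (hM : MolT) {Ω : Set E} {u a : E → E} {Λ : ℝ} (hc : Crit Ω u a Λ) {r₀ c₀ CU : ℝ}
    (_hG : Growth Ω u CU) {x : ℕ → E} {s : ℕ → ℝ} {ν : E} {g : E → ℝ} {V : E → E}
    (h : Bl Ω u r₀ c₀ x s ν g V) {b r : E → E} (hp : Pot b r) {Q : Set E} (hQ : IsCompact Q)
    (hv : VanOff Q r) : -2 * ip V r ≤ volume.real (Q \ {z | 0 < g z}) + sq r := by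
  obtain ⟨R, hR1, hR2⟩ := hp.bdd
  have hb := h.wk b hp.memLp₁ ⟨R, hR1⟩
  have hr := h.wk r hp.memLp₂ ⟨R, hR2⟩
  have hgo : IsOpen {z | 0 < g z} := isOpen_lt continuous_const h.lip.continuous
  -- the bad sets
  set S : ℕ → Set E := fun n => (Q ∩ {z | 0 < g z}) \ {z | x n + s n • z ∈ closure Ω} with hS
  have hSm : ∀ n, MeasurableSet (S n) := by
    intro n
    refine (hQ.measurableSet.inter hgo.measurableSet).diff (IsClosed.measurableSet ?_)
    exact isClosed_closure.preimage (continuous_const.add (continuous_id.const_smul (s n)))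
  have hSlim : Tendsto (fun n => volume (S n)) atTop (𝓝 (volume (∅ : Set E))) := by
    refine tendsto_measure_of_tendsto_indicator atTop hSm (hQ.measurableSet) hQ.measure_ne_top
      (Eventually.of_forall fun n => sdiff_subset.trans inter_subset_left) ?_
    intro z
    by_cases hz : 0 < g z
    · have := eventually_mem hc h (isCompact_singleton (x := z))
        (singleton_subset_iff.2 hz)
      filter_upwards [this] with n hn
      have h1 : x n + s n • z ∈ closure Ω := subset_closure (hn z rfl)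
      simp only [hS, Set.mem_sdiff, Set.mem_ofPred_eq, h1, not_true, and_false, mem_empty_iff_false]
    · refine Eventually.of_forall fun n => ?_
      simp only [hS, Set.mem_sdiff, mem_inter_iff, Set.mem_ofPred_eq, hz, and_false, false_and,
        mem_empty_iff_false]
  rw [measure_empty] at hSlim
  have hSr : Tendsto (fun n => volume.real (S n)) atTop (𝓝 0) := by
    have := (ENNReal.tendsto_toReal ENNReal.zero_ne_top).comp hSlim
    rw [ENNReal.toReal_zero] at this
    exact this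
  have hle : ∀ n, 2 * (s n * ip (bl u (x n) (s n)) b - Λ * ip (bl u (x n) (s n)) r)
      ≤ Λ / 3 * (volume.real (Q \ {z | 0 < g z}) + volume.real (S n))
          * (√3 + √(s n ^ 3 * sq r)) ^ 2 + Λ * sq r + s n * |ip r b| := by
    intro n
    have h1 := scale_out hM hc hp (x n) (h.spos n) hQ hv
    have h2 : volume.real (Q \ {z | x n + s n • z ∈ closure Ω})
        ≤ volume.real (Q \ {z | 0 < g z}) + volume.real (S n) := by
      refine (measureReal_mono ?_ ?_).trans (measureReal_union_le _ _)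
      · intro z hz
        by_cases hg : 0 < g z
        · exact Or.inr ⟨⟨hz.1, hg⟩, hz.2⟩
        · exact Or.inl ⟨hz.1, hg⟩
      · refine ne_top_of_le_ne_top hQ.measure_ne_top (measure_mono ?_)
        exact union_subset sdiff_subset (sdiff_subset.trans inter_subset_left)
    have h3 : Λ / 3 * volume.real (Q \ {z | x n + s n • z ∈ closure Ω})
        * (√3 + √(s n ^ 3 * sq r)) ^ 2
        ≤ Λ / 3 * (volume.real (Q \ {z | 0 < g z}) + volume.real (S n))
          * (√3 + √(s n ^ 3 * sq r)) ^ 2 := by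
      have h4 : 0 ≤ Λ / 3 := by
        have := hc.pos
        positivity
      exact mul_le_mul_of_nonneg_right (mul_le_mul_of_nonneg_left h2 h4) (by positivity)
    linarith
  have hL : Tendsto (fun n => 2 * (s n * ip (bl u (x n) (s n)) b - Λ * ip (bl u (x n) (s n)) r))
      atTop (𝓝 (2 * (0 * ip V b - Λ * ip V r))) :=
    ((h.slim.mul hb).sub (hr.const_mul Λ)).const_mul 2
  have hRt : Tendsto (fun n => Λ / 3 * (volume.real (Q \ {z | 0 < g z}) + volume.real (S n))
          * (√3 + √(s n ^ 3 * sq r)) ^ 2 + Λ * sq r + s n * |ip r b|) atTop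
      (𝓝 (Λ / 3 * (volume.real (Q \ {z | 0 < g z}) + 0)
          * (√3 + √(0 ^ 3 * sq r)) ^ 2 + Λ * sq r + 0 * |ip r b|)) := by
    refine (((tendsto_const_nhds.mul (tendsto_const_nhds.add hSr)).mul ?_).add
      tendsto_const_nhds).add (h.slim.mul_const _)
    refine (tendsto_const_nhds.add ?_).pow 2
    exact (Real.continuous_sqrt.tendsto _).comp ((h.slim.pow 3).mul_const _)
  have hfin := le_of_tendsto_of_tendsto' hL hRt hle
  have h3 : (√3 + √(0 ^ 3 * sq r)) ^ 2 = 3 := by
    have : (0 : ℝ) ^ 3 * sq r = 0 := by ring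
    rw [this, Real.sqrt_zero, add_zero, Real.sq_sqrt (by norm_num)]
  rw [h3] at hfin
  have h5 : Λ * (-2 * ip V r) ≤ Λ * (volume.real (Q \ {z | 0 < g z}) + sq r) := by nlinarith
  exact le_of_mul_le_mul_left h5 hc.pos

end Pool.Agent.Helper36.Curl
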