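import Pool.Agent.Helper40.Curl.KC

open MeasureTheory Set Filter Topology Metric
open scoped ContDiff RealInnerProductSpace
open Pool.Agent.Helper38.Curl
open Pool.Agent.Helper94.Curl (kap_nonneg kap_eq_zero kap_radial kap_contDiff integral_kap0_pos)

namespace Pool.Agent.Helper36.Curl

/-- Cauchy-Schwarz on a set of finite measure. -/
theorem sq_integral_le {S : Set E} (hfin : volume S ≠ ⊤) {f : E → ℝ}
    (hf : MemLp f 2 (volume.restrict S)) :
    (∫ y in S, f y) ^ 2 ≤ volume.real S * ∫ y in S, f y ^ 2 := by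
  have hfs : IsFiniteMeasure (volume.restrict S) := ⟨by simpa using hfin.lt_top⟩
  have hi : Integrable f (volume.restrict S) := hf.integrable (by norm_num)
  have hi2 : Integrable (fun y => f y ^ 2) (volume.restrict S) := hf.integrable_sq
  set m := volume.real S with hm
  set I := ∫ y in S, f y with hI
  set J := ∫ y in S, f y ^ 2 with hJ
  have hm0 : 0 ≤ m := measureReal_nonneg
  have h1 : ∀ t : ℝ, 0 ≤ J - 2 * t * I + t ^ 2 * m := by
    intro t
    have h2 : 0 ≤ ∫ y in S, (f y - t) ^ 2 := integral_nonneg fun y => sq_nonneg _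
    have h3 : ∫ y in S, (f y - t) ^ 2 = J - 2 * t * I + t ^ 2 * m := by
      have h4 : ∀ y, (f y - t) ^ 2 = f y ^ 2 - 2 * t * f y + t ^ 2 := fun y => by ring
      simp only [h4]
      have hs : Integrable (fun y => f y ^ 2 - 2 * t * f y) (volume.restrict S) :=
        hi2.sub (hi.const_mul _)
      rw [integral_add hs (integrable_const _),
        integral_sub hi2 (hi.const_mul _), integral_const_mul, integral_const, ← hI, ← hJ]
      simp [hm, mul_comm]
    linarith
  rcases hm0.eq_or_lt with h0 | h0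
  · rw [← h0] at h1
    have h5 : I = 0 := by
      by_contra hne
      have := h1 ((J + 1) / (2 * I))
      have h6 : 2 * ((J + 1) / (2 * I)) * I = J + 1 := by field_simp
      rw [h6] at this
      linarith
    rw [h5, ← h0]; simp
  · have := h1 (I / m)
    have h7 : J - 2 * (I / m) * I + (I / m) ^ 2 * m = J - I ^ 2 / m := by
      field_simp
      ring
    rw [h7] at this
    have h8 : I ^ 2 / m ≤ J := by linarith
    rw [div_le_iff₀ h0] at h8
    linarith

theorem norm_mol_le : ∃ C : ℝ, 0 < C ∧ ∀ (r : ℝ) (x : E) (v : E → E), 0 < r →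
    MemLp v 2 (volume.restrict (ball x r)) →
      ‖mol r v x‖ ^ 2 ≤ C * (r ^ 3)⁻¹ * sqOn (ball x r) v := by
  set κ : ℝ := (∫ z, kap0 z)⁻¹ with hκ
  have hκ0 : 0 < κ := inv_pos.2 integral_kap0_pos
  have hV : 0 < volume.real (ball (0 : E) 1) := by
    rw [measureReal_def]
    exact ENNReal.toReal_pos (measure_ball_pos volume 0 one_pos).ne' measure_ball_lt_top.ne
  refine ⟨κ ^ 2 * volume.real (ball (0 : E) 1), by positivity, ?_⟩
  intro r x v hr hv
  have hkle : ∀ y, kap r y ≤ κ * (r ^ 3)⁻¹ := by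
    intro y
    unfold kap
    have h1 : kap0 (r⁻¹ • y) ≤ 1 := by
      unfold kap0 expNegInvGlue
      split_ifs with h
      · exact zero_le_one
      · apply Real.exp_le_one_iff.2
        have : 0 < 1 - ‖r⁻¹ • y‖ ^ 2 := not_le.1 h
        have h3 := (inv_pos.2 this).le
        linarith
    have h2 : 0 ≤ κ * (r ^ 3)⁻¹ := by positivity
    calc κ * (r ^ 3)⁻¹ * kap0 (r⁻¹ • y) ≤ κ * (r ^ 3)⁻¹ * 1 := mul_le_mul_of_nonneg_left h1 h2
      _ = _ := mul_one _
  have hball : volume.real (ball x r) = r ^ 3 * volume.real (ball (0 : E) 1) := by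
    rw [measureReal_def, Measure.addHaar_ball volume x hr.le, ENNReal.toReal_mul,
      ENNReal.toReal_ofReal (by positivity), measureReal_def]
    simp
  have hfin : volume (ball x r) ≠ ⊤ := measure_ball_lt_top.ne
  have hnorm : MemLp (fun y => ‖v y‖) 2 (volume.restrict (ball x r)) := hv.norm
  have hfs : IsFiniteMeasure (volume.restrict (ball x r)) := ⟨by simpa using hfin.lt_top⟩
  have hint : Integrable (fun y => ‖v y‖) (volume.restrict (ball x r)) :=
    hnorm.integrable (by norm_num)
  have h1 : mol r v x = ∫ y in ball x r, kap r (x - y) • v y := by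
    unfold mol
    rw [← integral_indicator measurableSet_ball]
    congr 1
    funext y
    by_cases hy : y ∈ ball x r
    · rw [indicator_of_mem hy]
    · rw [indicator_of_notMem hy, kap_eq_zero hr, zero_smul]
      rw [mem_ball, dist_eq_norm, not_lt] at hy
      rwa [norm_sub_rev]
  have h2 : ‖mol r v x‖ ≤ κ * (r ^ 3)⁻¹ * ∫ y in ball x r, ‖v y‖ := by
    rw [h1, ← integral_const_mul]
    refine norm_integral_le_of_norm_le (hint.const_mul _) (Eventually.of_forall fun y => ?_)
    rw [norm_smul, Real.norm_eq_abs, abs_of_nonneg (kap_nonneg hr _)]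
    exact mul_le_mul_of_nonneg_right (hkle _) (norm_nonneg _)
  have h3 := sq_integral_le hfin hnorm
  calc ‖mol r v x‖ ^ 2 ≤ (κ * (r ^ 3)⁻¹ * ∫ y in ball x r, ‖v y‖) ^ 2 :=
        pow_le_pow_left₀ (norm_nonneg _) h2 2
    _ = (κ * (r ^ 3)⁻¹) ^ 2 * (∫ y in ball x r, ‖v y‖) ^ 2 := by ring
    _ ≤ (κ * (r ^ 3)⁻¹) ^ 2 * (volume.real (ball x r) * ∫ y in ball x r, ‖v y‖ ^ 2) :=
        mul_le_mul_of_nonneg_left h3 (by positivity)
    _ = _ := by
        rw [hball]
        unfold sqOn
        field_simp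

theorem ip_mol_comm {v w : E → E} (hv : MemLp v 2) (hw : MemLp w 2) {r : ℝ} (hr : 0 < r) :
    ip (mol r v) w = ip v (mol r w) := by
  have hvl : LocallyIntegrable v := hv.locallyIntegrable (by norm_num)
  have hwl : LocallyIntegrable w := hw.locallyIntegrable (by norm_num)
  have hsymm : ∀ x y : E, kap r (x - y) = kap r (y - x) := fun x y =>
    kap_radial (norm_sub_rev x y)
  have hkc : Continuous (kap r) := (kap_contDiff hr).continuous
  have hki : Integrable (kap r) :=
    hkc.integrable_of_hasCompactSupport (Pool.Agent.Helper40.Curl.kap_cpt hr)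
  -- integrability on the product
  have hconv : ∀ f : E → ℝ, Integrable f →
      Integrable (fun p : E × E => f p.2 * kap r (p.1 - p.2)) (volume.prod volume) := by
    intro f hf
    exact hf.convolution_integrand (ContinuousLinearMap.mul ℝ ℝ) hki
  have i1 := hconv _ (integrable_norm_sq hv)
  have i2 := (hconv _ (integrable_norm_sq hw)).swap
  have hbound : Integrable (fun p : E × E => ‖v p.2‖ ^ 2 * kap r (p.1 - p.2)
      + ‖w p.1‖ ^ 2 * kap r (p.2 - p.1)) (volume.prod volume) := i1.add i2
  have hmeas : AEStronglyMeasurable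
      (fun p : E × E => kap r (p.1 - p.2) * ⟪v p.2, w p.1⟫) (volume.prod volume) := by
    refine AEStronglyMeasurable.mul ?_ ?_
    · exact (hkc.comp (continuous_fst.sub continuous_snd)).aestronglyMeasurable
    · exact hv.1.comp_snd.inner hw.1.comp_fst
  have hint : Integrable (fun p : E × E => kap r (p.1 - p.2) * ⟪v p.2, w p.1⟫)
      (volume.prod volume) := by
    refine hbound.mono' hmeas (Eventually.of_forall fun p => ?_)
    have hk := kap_nonneg hr (p.1 - p.2)
    rw [norm_mul, Real.norm_eq_abs, abs_of_nonneg hk, Real.norm_eq_abs, hsymm p.2 p.1]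
    have h1 := abs_real_inner_le_norm (v p.2) (w p.1)
    have h2 : ‖v p.2‖ * ‖w p.1‖ ≤ ‖v p.2‖ ^ 2 + ‖w p.1‖ ^ 2 := by
      nlinarith [sq_nonneg (‖v p.2‖ - ‖w p.1‖), sq_nonneg ‖v p.2‖, sq_nonneg ‖w p.1‖]
    calc kap r (p.1 - p.2) * |⟪v p.2, w p.1⟫|
        ≤ kap r (p.1 - p.2) * (‖v p.2‖ ^ 2 + ‖w p.1‖ ^ 2) :=
          mul_le_mul_of_nonneg_left (h1.trans h2) hk
      _ = _ := by ring
  have hswap := integral_integral_swap (f := fun x y => kap r (x - y) * ⟪v y, w x⟫) hint
  have e1 : ip (mol r v) w = ∫ x, ∫ y, kap r (x - y) * ⟪v y, w x⟫ := by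
    unfold ip
    congr 1
    funext x
    rw [real_inner_comm]
    unfold mol
    rw [← integral_inner (Pool.Agent.Helper40.Curl.integrable_smul_kap hvl hr x) (w x)]
    congr 1
    funext y
    rw [real_inner_smul_right, real_inner_comm]
  have e2 : ip v (mol r w) = ∫ y, ∫ x, kap r (x - y) * ⟪v y, w x⟫ := by
    unfold ip
    congr 1
    funext y
    unfold mol
    rw [← integral_inner (Pool.Agent.Helper40.Curl.integrable_smul_kap hwl hr y) (v y)]
    congr 1
    funext x
    rw [real_inner_smul_right, hsymm]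
  rw [e1, e2, hswap]

end Pool.Agent.Helper36.Curl
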