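import Pool.Agent.Helper40.Curl.KC

open MeasureTheory Set Filter Topology Metric
open scoped ContDiff RealInnerProductSpace
open Pool.Agent.Helper38.Curl
open Pool.Agent.Helper94.Curl (kap_nonneg kap_eq_zero kap_radial kap_contDiff integral_kap0_pos
  integral_kap mol_contDiff)

namespace Pool.Agent.Helper36.Curl

theorem jensen {v : E → E} (hv : MemLp v 2) {r : ℝ} (hr : 0 < r) (x : E) :
    ‖mol r v x‖ ^ 2 ≤ ∫ y, ‖v y‖ ^ 2 * kap r (x - y) := by
  have hvl : LocallyIntegrable v := hv.locallyIntegrable (by norm_num)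
  have hkc : Continuous (kap r) := (kap_contDiff hr).continuous
  have hkx : Continuous (fun y => kap r (x - y)) := hkc.comp (continuous_const.sub continuous_id)
  have hcs : HasCompactSupport (kap r) := Pool.Agent.Helper40.Curl.kap_cpt hr
  obtain ⟨M, hM⟩ := hcs.exists_bound_of_continuous hkc
  have i1 : Integrable (fun y => kap r (x - y) • v y) :=
    Pool.Agent.Helper40.Curl.integrable_smul_kap hvl hr x
  have i2 : Integrable (fun y => kap r (x - y) * ‖v y‖) := by
    have := i1.norm
    refine this.congr (Eventually.of_forall fun y => ?_)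
    simp only [norm_smul, Real.norm_eq_abs, abs_of_nonneg (kap_nonneg hr _)]
  have i3 : Integrable (fun y => ‖v y‖ ^ 2 * kap r (x - y)) :=
    (integrable_norm_sq hv).mul_bdd (c := M) hkx.aestronglyMeasurable
      (Eventually.of_forall fun y => hM _)
  have hk1 : ∫ y, kap r (x - y) = 1 := by
    rw [integral_sub_left_eq_self (kap r) volume x]
    exact integral_kap hr
  have i4 : Integrable (fun y => kap r (x - y)) := by
    have := (hkc.integrable_of_hasCompactSupport (μ := (volume : Measure E)) hcs)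
    exact this.comp_sub_left x
  set A := ∫ y, ‖v y‖ ^ 2 * kap r (x - y) with hA
  set B := ∫ y, kap r (x - y) * ‖v y‖ with hB
  have h1 : 0 ≤ A - 2 * B * B + B ^ 2 := by
    have h2 : 0 ≤ ∫ y, kap r (x - y) * (‖v y‖ - B) ^ 2 :=
      integral_nonneg fun y => mul_nonneg (kap_nonneg hr _) (sq_nonneg _)
    have h3 : ∀ y, kap r (x - y) * (‖v y‖ - B) ^ 2
        = ‖v y‖ ^ 2 * kap r (x - y) - 2 * B * (kap r (x - y) * ‖v y‖)
          + B ^ 2 * kap r (x - y) := fun y => by ring
    simp only [h3] at h2
    have i5 : Integrable (fun y => ‖v y‖ ^ 2 * kap r (x - y)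
        - 2 * B * (kap r (x - y) * ‖v y‖)) := i3.sub (i2.const_mul _)
    rw [integral_add i5 (i4.const_mul _), integral_sub i3 (i2.const_mul _), integral_const_mul,
      integral_const_mul, hk1, ← hA, ← hB] at h2
    linarith
  have h4 : ‖mol r v x‖ ≤ B := by
    unfold mol
    refine (norm_integral_le_integral_norm _).trans (le_of_eq ?_)
    rw [hB]
    congr 1
    funext y
    rw [norm_smul, Real.norm_eq_abs, abs_of_nonneg (kap_nonneg hr _)]
  have h5 : ‖mol r v x‖ ^ 2 ≤ B ^ 2 := pow_le_pow_left₀ (norm_nonneg _) h4 2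
  nlinarith

theorem mol_sq {v : E → E} (hv : MemLp v 2) {r : ℝ} (hr : 0 < r) :
    Integrable (fun x => ‖mol r v x‖ ^ 2) ∧ sq (mol r v) ≤ sq v := by
  have hvl : LocallyIntegrable v := hv.locallyIntegrable (by norm_num)
  have hkc : Continuous (kap r) := (kap_contDiff hr).continuous
  have hki : Integrable (kap r) :=
    hkc.integrable_of_hasCompactSupport (Pool.Agent.Helper40.Curl.kap_cpt hr)
  have hprod : Integrable (fun p : E × E => ‖v p.2‖ ^ 2 * kap r (p.1 - p.2))
      (volume.prod volume) :=
    (integrable_norm_sq hv).convolution_integrand (ContinuousLinearMap.mul ℝ ℝ) hki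
  have hleft := hprod.integral_prod_left
  have hmc : Continuous (mol r v) := (mol_contDiff hvl hr).continuous
  have hint : Integrable (fun x => ‖mol r v x‖ ^ 2) := by
    refine hleft.mono' (hmc.norm.pow 2).aestronglyMeasurable (Eventually.of_forall fun x => ?_)
    rw [Real.norm_eq_abs, abs_of_nonneg (by positivity)]
    exact jensen hv hr x
  refine ⟨hint, ?_⟩
  calc sq (mol r v) = ∫ x, ‖mol r v x‖ ^ 2 := rfl
    _ ≤ ∫ x, ∫ y, ‖v y‖ ^ 2 * kap r (x - y) :=
        integral_mono hint hleft fun x => jensen hv hr x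
    _ = ∫ y, ∫ x, ‖v y‖ ^ 2 * kap r (x - y) :=
        integral_integral_swap (f := fun x y => ‖v y‖ ^ 2 * kap r (x - y)) hprod
    _ = ∫ y, ‖v y‖ ^ 2 := by
        congr 1
        funext y
        rw [integral_const_mul, integral_sub_right_eq_self (kap r) y, integral_kap hr, mul_one]
    _ = sq v := rfl

theorem mol_memLp {v : E → E} (hv : MemLp v 2) {r : ℝ} (hr : 0 < r) : MemLp (mol r v) 2 := by
  have hvl : LocallyIntegrable v := hv.locallyIntegrable (by norm_num)
  rw [memLp_two_iff_integrable_sq_norm (mol_contDiff hvl hr).continuous.aestronglyMeasurable]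
  exact (mol_sq hv hr).1

theorem sq_mol_le {v : E → E} (hv : MemLp v 2) {r : ℝ} (hr : 0 < r) : sq (mol r v) ≤ sq v :=
  (mol_sq hv hr).2

end Pool.Agent.Helper36.Curl
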