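import Pool.Agent.Helper36.Curl.BL2
import Pool.Agent.Helper36.Curl.M2
import Pool.Agent.Helper36.Curl.M2b
import Pool.Agent.Helper41.Curl.MolTendsto

/-!
Hypothesis-free forms of the packets C-M2, C-KC (`pot_symm`), C-HARM, C-SC, C-V1, C-V2, C-BL2.
-/

open MeasureTheory Set Filter Topology Metric
open scoped ContDiff RealInnerProductSpace
open Pool.Agent.Helper38.Curl
open Pool.Agent.Helper3.Curl (SNormMol)

namespace Pool.Agent.Helper36.Curl.Fin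

theorem mol_tendsto {v : E → E} (hv : MemLp v 2) :
    Tendsto (fun r => sq (fun x => mol r v x - v x)) (𝓝[>] 0) (𝓝 0) :=
  Pool.Agent.Helper41.Curl.mol_tendsto_of (fun {_} hv {_} hr => mol_memLp hv hr)
    (fun {_} hv {_} hr => sq_mol_le hv hr) hv

theorem molT : MolT := fun _ hv => mol_tendsto hv

theorem snormMol : SNormMol := norm_mol_le

theorem pot_symm {a v b w : E → E} (h : Pot a v) (h' : Pot b w) : ip v b = ip a w :=
  Pool.Agent.Helper40.Curl.pot_symm_of molT h h'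

theorem harm_rep {U : Set E} (hU : IsOpen U) {V : E → E}
    (hV : ∀ z ρ, closedBall z ρ ⊆ U → MemLp V 2 (volume.restrict (closedBall z ρ)))
    (h : ∀ z ρ, 0 < ρ → closedBall z ρ ⊆ U → WH (ball z ρ) V) :
    ∃ F : E → E, ContinuousOn F U ∧ (∀ᵐ x, x ∈ U → F x = V x) ∧
      ∀ x r, 0 < r → closedBall x r ⊆ U → F x = mol r V x :=
  sharm molT hU hV h

theorem strong_conv {z : E} {ρ : ℝ} (hρ : 0 < ρ) {v : ℕ → E → E} {V : E → E}
    (hv : ∀ n, MemLp (v n) 2) (hd : ∀ n η, TestF η → ∫ x, fderiv ℝ η x (v n x) = 0) {C : ℝ}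
    (hC : ∀ᶠ n in atTop, sqOn (ball z ρ) (v n) ≤ C)
    (hα : ∀ ε, 0 < ε → ∀ᶠ n in atTop, ∀ r, Sol (closedBall z ρ) r →
      |ip (v n) r| ≤ ε * √(sq r))
    (hV : MemLp V 2 (volume.restrict (closedBall z ρ))) (hw : WkTo v V) :
    Tendsto (fun n => sqOn (ball z (ρ / 2)) (fun x => v n x - V x)) atTop (𝓝 0) ∧
      WH (ball z ρ) V :=
  Pool.Agent.Helper3.Curl.strong_conv snormMol shodge (sharm molT) hρ hv hd hC hα hV hw

theorem var_in {Ω : Set E} {u a : E → E} {Λ : ℝ} (hc : Crit Ω u a Λ) {b r : E → E}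
    (hp : Pot b r) (hv : VanOff (closure Ω) r) : ip u b = Λ * ip u r :=
  Pool.Agent.Helper36.Curl.var_in molT hc hp hv

theorem var_out {Ω : Set E} {u a : E → E} {Λ : ℝ} (hc : Crit Ω u a Λ) {b r : E → E}
    (hp : Pot b r) {Q : Set E} (hQ : IsCompact Q) (hv : VanOff Q r) :
    2 * (ip u b - Λ * ip u r) ≤ Λ / 3 * volume.real (Q \ closure Ω) * sq (fun x => u x + r x)
      + Λ * sq r - ip r b :=
  Pool.Agent.Helper36.Curl.var_out molT hc hp hQ hv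

theorem var_needle {Ω : Set E} {u a : E → E} {Λ : ℝ} (hc : Crit Ω u a Λ) {b r : E → E}
    (hp : Pot b r) (hv : VanOff (closure Ω) r) {Z : Set E} (hZ : IsOpen Z) (hZΩ : Z ⊆ Ω)
    (h0 : ∀ᵐ x, x ∈ Z → u x + r x = 0) :
    Λ / 3 * volume.real Z * sq (fun x => u x + r x) ≤ Λ * sq r - ip r b :=
  Pool.Agent.Helper36.Curl.var_needle molT hc hp hv hZ hZΩ h0

theorem scale_in {Ω : Set E} {u a : E → E} {Λ : ℝ} (hc : Crit Ω u a Λ) {b r : E → E}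
    (hp : Pot b r) (x : E) {s : ℝ} (hs : 0 < s) (hv : VanOff {z | x + s • z ∈ closure Ω} r) :
    s * ip (bl u x s) b = Λ * ip (bl u x s) r :=
  Pool.Agent.Helper36.Curl.scale_in molT hc hp x hs hv

theorem scale_out {Ω : Set E} {u a : E → E} {Λ : ℝ} (hc : Crit Ω u a Λ) {b r : E → E}
    (hp : Pot b r) (x : E) {s : ℝ} (hs : 0 < s) {Q : Set E} (hQ : IsCompact Q) (hv : VanOff Q r) :
    2 * (s * ip (bl u x s) b - Λ * ip (bl u x s) r)
      ≤ Λ / 3 * volume.real (Q \ {z | x + s • z ∈ closure Ω}) * (√3 + √(s ^ 3 * sq r)) ^ 2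
        + Λ * sq r + s * |ip r b| :=
  Pool.Agent.Helper36.Curl.scale_out molT hc hp x hs hQ hv

theorem scale_needle {Ω : Set E} {u a : E → E} {Λ : ℝ} (hc : Crit Ω u a Λ) {b r : E → E}
    (hp : Pot b r) (x : E) {s : ℝ} (hs : 0 < s) (hv : VanOff {z | x + s • z ∈ closure Ω} r)
    (h3 : s ^ 3 * sq r ≤ 3) {Z : Set E} (hZ : IsOpen Z) (hZΩ : ∀ z ∈ Z, x + s • z ∈ Ω)
    (h0 : ∀ᵐ z, z ∈ Z → bl u x s z + r z = 0) :
    Λ / 3 * volume.real Z * (√3 - √(s ^ 3 * sq r)) ^ 2 ≤ Λ * sq r + s * |ip r b| :=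
  Pool.Agent.Helper36.Curl.scale_needle molT hc hp x hs hv h3 hZ hZΩ h0

theorem strong {Ω : Set E} {u a : E → E} {Λ : ℝ} (hc : Crit Ω u a Λ) {r₀ c₀ CU : ℝ}
    (hG : Growth Ω u CU) {x : ℕ → E} {s : ℕ → ℝ} {ν : E} {g : E → ℝ} {V : E → E}
    (h : Bl Ω u r₀ c₀ x s ν g V) {z : E} {ρ : ℝ} (hρ : 0 < ρ)
    (hz : closedBall z ρ ⊆ {z | 0 < g z}) :
    Tendsto (fun n => sqOn (ball z (ρ / 2)) (fun y => bl u (x n) (s n) y - V y)) atTop (𝓝 0) ∧
      WH (ball z ρ) V :=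
  Pool.Agent.Helper36.Curl.strong molT snormMol hc hG h hρ hz

theorem rep {Ω : Set E} {u a : E → E} {Λ : ℝ} (hc : Crit Ω u a Λ) {r₀ c₀ CU : ℝ}
    (hG : Growth Ω u CU) {x : ℕ → E} {s : ℕ → ℝ} {ν : E} {g : E → ℝ} {V : E → E}
    (h : Bl Ω u r₀ c₀ x s ν g V) : ∃ F, Rep g V F :=
  Pool.Agent.Helper36.Curl.rep molT snormMol hc hG h

theorem outer {Ω : Set E} {u a : E → E} {Λ : ℝ} (hc : Crit Ω u a Λ) {r₀ c₀ CU : ℝ}
    (hG : Growth Ω u CU) {x : ℕ → E} {s : ℕ → ℝ} {ν : E} {g : E → ℝ} {V : E → E}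
    (h : Bl Ω u r₀ c₀ x s ν g V) {b r : E → E} (hp : Pot b r) {Q : Set E} (hQ : IsCompact Q)
    (hv : VanOff Q r) : -2 * ip V r ≤ volume.real (Q \ {z | 0 < g z}) + sq r :=
  Pool.Agent.Helper36.Curl.outer molT hc hG h hp hQ hv

end Pool.Agent.Helper36.Curl.Fin
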