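import Pool.Agent.Helper40.Curl.KC

open MeasureTheory Set Filter Topology Metric
open scoped ContDiff RealInnerProductSpace
open Pool.Agent.Helper38.Curl

namespace Pool.Agent.Helper36.Curl

/-- Convergence of the mollifications (packet C-M2, `mol_tendsto`). -/
def MolT : Prop := ∀ v : E → E, MemLp v 2 →
  Tendsto (fun r => Pool.Agent.Helper38.Curl.sq (fun x => mol r v x - v x)) (𝓝[>] 0) (𝓝 0)

theorem pot_symm (hM : MolT) {a v b w : E → E} (h : Pot a v) (h' : Pot b w) :
    ip v b = ip a w := Pool.Agent.Helper40.Curl.pot_symm_of hM h h'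

theorem lin_zero {α β : ℝ} (h : ∀ t : ℝ, 0 ≤ t * α + t ^ 2 * β) : α = 0 := by
  by_contra hα
  have hb : 0 < |β| + 1 := by positivity
  have h1 := h (-α / (|β| + 1))
  have h2 : β ≤ |β| := le_abs_self β
  have h3 : (-α / (|β| + 1)) * α + (-α / (|β| + 1)) ^ 2 * β
      = α ^ 2 / (|β| + 1) ^ 2 * (β - (|β| + 1)) := by
    field_simp
    ring
  rw [h3] at h1
  have h4 : 0 < α ^ 2 / (|β| + 1) ^ 2 := by positivity
  nlinarith

theorem van_clos {Ω : Set E} {u a : E → E} {Λ : ℝ} (hc : Crit Ω u a Λ) : VanOff (closure Ω) u :=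
  Eventually.of_forall fun x hx => hc.van x fun h => hx (subset_closure h)

theorem comp_clos {Ω : Set E} {u a : E → E} {Λ : ℝ} (hc : Crit Ω u a Λ) : IsCompact (closure Ω) :=
  hc.bdd.isCompact_closure

theorem vol_clos {Ω : Set E} {u a : E → E} {Λ : ℝ} (hc : Crit Ω u a Λ) :
    volume (closure Ω) = 1 := by
  apply le_antisymm
  · have h1 : closure Ω = Ω ∪ frontier Ω := closure_eq_self_union_frontier Ω
    rw [h1]
    refine (measure_union_le _ _).trans ?_
    rw [hc.vol, hc.fr, add_zero]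
  · rw [← hc.vol]
    exact measure_mono subset_closure

theorem real_clos {Ω : Set E} {u a : E → E} {Λ : ℝ} (hc : Crit Ω u a Λ) :
    volume.real (closure Ω) = 1 := by
  rw [measureReal_def, vol_clos hc]; simp

theorem expand (hM : MolT) {Ω : Set E} {u a : E → E} {Λ : ℝ} (hc : Crit Ω u a Λ) {b r : E → E}
    (hp : Pot b r) :
    ip (fun x => u x + r x) (fun x => a x + b x) = 3 * Λ + 2 * ip u b + ip r b ∧
    sq (fun x => u x + r x) = 3 + 2 * ip u r + sq r := by
  have hs := pot_symm hM hc.pot hp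
  have hab : MemLp (fun x => a x + b x) 2 := hc.pot.memLp₁.add hp.memLp₁
  constructor
  · rw [ip_add_left hc.pot.memLp₂ hp.memLp₂ hab,
      ip_add_right hc.pot.memLp₂ hc.pot.memLp₁ hp.memLp₁,
      ip_add_right hp.memLp₂ hc.pot.memLp₁ hp.memLp₁, hc.hel, ip_comm r a, ← hs]
    ring
  · rw [sq_add hc.pot.memLp₂ hp.memLp₂, hc.norm]

theorem var_in (hM : MolT) {Ω : Set E} {u a : E → E} {Λ : ℝ} (hc : Crit Ω u a Λ) {b r : E → E}
    (hp : Pot b r) (hv : VanOff (closure Ω) r) : ip u b = Λ * ip u r := by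
  have h : ∀ t : ℝ, 0 ≤ t * (2 * (Λ * ip u r - ip u b)) + t ^ 2 * (Λ * sq r - ip r b) := by
    intro t
    have hpt := hp.smul t
    have h1 := hc.opt (closure Ω) _ _ (comp_clos hc) (hc.pot.add hpt)
      ((van_clos hc).add (hv.smul t))
    rw [(expand hM hc hpt).1, (expand hM hc hpt).2, real_clos hc, Real.one_rpow, ip_smul_right,
      ip_smul_left, ip_smul_right, ip_smul_right, sq_smul] at h1
    nlinarith
  have := lin_zero h
  linarith

theorem var_out (hM : MolT) {Ω : Set E} {u a : E → E} {Λ : ℝ} (hc : Crit Ω u a Λ) {b r : E → E}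
    (hp : Pot b r) {Q : Set E} (hQ : IsCompact Q) (hv : VanOff Q r) :
    2 * (ip u b - Λ * ip u r) ≤ Λ / 3 * volume.real (Q \ closure Ω) * sq (fun x => u x + r x)
      + Λ * sq r - ip r b := by
  have hC : IsCompact (closure Ω ∪ Q) := (comp_clos hc).union hQ
  have h1 := hc.opt (closure Ω ∪ Q) _ _ hC (hc.pot.add hp)
    (((van_clos hc).mono subset_union_left).add (hv.mono subset_union_right))
  have hm : volume.real (closure Ω ∪ Q) = 1 + volume.real (Q \ closure Ω) := by
    rw [← union_diff_self, measureReal_union disjoint_sdiff_right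
      (hQ.measurableSet.diff isClosed_closure.measurableSet)
      (by rw [vol_clos hc]; simp) (ne_top_of_le_ne_top hQ.measure_ne_top (measure_mono diff_subset)),
      real_clos hc]
  have hm0 : 0 ≤ volume.real (Q \ closure Ω) := measureReal_nonneg
  have hpow : (1 + volume.real (Q \ closure Ω)) ^ (1 / 3 : ℝ)
      ≤ 1 + 1 / 3 * volume.real (Q \ closure Ω) :=
    rpow_one_add_le_one_add_mul_self (by linarith) (by norm_num) (by norm_num)
  rw [(expand hM hc hp).1, hm] at h1
  have hs0 : 0 ≤ sq (fun x => u x + r x) := sq_nonneg' _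
  have h2 : Λ * (1 + volume.real (Q \ closure Ω)) ^ (1 / 3 : ℝ) * sq (fun x => u x + r x)
      ≤ Λ * (1 + 1 / 3 * volume.real (Q \ closure Ω)) * sq (fun x => u x + r x) :=
    mul_le_mul_of_nonneg_right (mul_le_mul_of_nonneg_left hpow hc.pos.le) hs0
  have h3 := (expand hM hc hp).2
  have h4 : Λ * (1 + 1 / 3 * volume.real (Q \ closure Ω)) * sq (fun x => u x + r x)
      = Λ * (3 + 2 * ip u r + sq r)
        + Λ / 3 * volume.real (Q \ closure Ω) * sq (fun x => u x + r x) := by
    rw [← h3]; ring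
  linarith

theorem var_needle (hM : MolT) {Ω : Set E} {u a : E → E} {Λ : ℝ} (hc : Crit Ω u a Λ) {b r : E → E}
    (hp : Pot b r) (hv : VanOff (closure Ω) r) {Z : Set E} (hZ : IsOpen Z) (hZΩ : Z ⊆ Ω)
    (h0 : ∀ᵐ x, x ∈ Z → u x + r x = 0) :
    Λ / 3 * volume.real Z * sq (fun x => u x + r x) ≤ Λ * sq r - ip r b := by
  have hC : IsCompact (closure Ω \ Z) := (comp_clos hc).diff hZ
  have hvan : VanOff (closure Ω \ Z) (fun x => u x + r x) := by
    filter_upwards [van_clos hc, hv, h0] with x h1 h2 h3 hx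
    by_cases hxc : x ∈ closure Ω
    · exact h3 (by by_contra hz; exact hx ⟨hxc, hz⟩)
    · rw [h1 hxc, h2 hxc, add_zero]
  have h1 := hc.opt (closure Ω \ Z) _ _ hC (hc.pot.add hp) hvan
  have hZc : Z ⊆ closure Ω := hZΩ.trans subset_closure
  have hm : volume.real (closure Ω \ Z) = 1 + -volume.real Z := by
    rw [measureReal_diff hZc hZ.measurableSet (by rw [vol_clos hc]; simp), real_clos hc]
    ring
  have hm1 : volume.real Z ≤ 1 := by
    rw [← real_clos hc]
    exact measureReal_mono hZc (by rw [vol_clos hc]; simp)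
  have hpow : (1 + -volume.real Z) ^ (1 / 3 : ℝ) ≤ 1 + 1 / 3 * -volume.real Z :=
    rpow_one_add_le_one_add_mul_self (by linarith) (by norm_num) (by norm_num)
  rw [(expand hM hc hp).1, hm] at h1
  have hs0 : 0 ≤ sq (fun x => u x + r x) := sq_nonneg' _
  have h2 : Λ * (1 + -volume.real Z) ^ (1 / 3 : ℝ) * sq (fun x => u x + r x)
      ≤ Λ * (1 + 1 / 3 * -volume.real Z) * sq (fun x => u x + r x) :=
    mul_le_mul_of_nonneg_right (mul_le_mul_of_nonneg_left hpow hc.pos.le) hs0
  have h3 := (expand hM hc hp).2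
  have h4 : Λ * (1 + 1 / 3 * -volume.real Z) * sq (fun x => u x + r x)
      = Λ * (3 + 2 * ip u r + sq r)
        - Λ / 3 * volume.real Z * sq (fun x => u x + r x) := by
    rw [← h3]; ring
  have h5 := var_in hM hc hp hv
  nlinarith

end Pool.Agent.Helper36.Curl
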