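import Pool.Agent.Helper36.Curl.V1

open MeasureTheory Set Filter Topology Metric
open scoped ContDiff RealInnerProductSpace
open Pool.Agent.Helper38.Curl

namespace Pool.Agent.Helper36.Curl

/-- The affine change of variables. -/
noncomputable def T (x : E) (s : ℝ) (y : E) : E := s⁻¹ • (y - x)

theorem cont_T (x : E) (s : ℝ) : Continuous (T x s) := by
  unfold T
  fun_prop

theorem T_inv {s : ℝ} (hs : 0 < s) (x y : E) : x + s • T x s y = y := by
  unfold T
  rw [smul_smul, mul_inv_cancel₀ hs.ne', one_smul]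
  abel

theorem T_inv' {s : ℝ} (hs : 0 < s) (x z : E) : T x s (x + s • z) = z := by
  unfold T
  rw [add_sub_cancel_left, smul_smul, inv_mul_cancel₀ hs.ne', one_smul]

theorem cv {F : Type*} [NormedAddCommGroup F] [NormedSpace ℝ F] (f : E → F) (x : E) {s : ℝ}
    (hs : 0 < s) : ∫ y, f (T x s y) = s ^ 3 • ∫ z, f z := by
  unfold T
  rw [integral_sub_right_eq_self (fun y => f (s⁻¹ • y)) x,
    Measure.integral_comp_inv_smul_of_nonneg volume f hs.le]
  simp

theorem cv' {F : Type*} [NormedAddCommGroup F] [NormedSpace ℝ F] (g : E → F) (x : E) {s : ℝ}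
    (hs : 0 < s) : ∫ y, g y = s ^ 3 • ∫ z, g (x + s • z) := by
  rw [← cv (fun z => g (x + s • z)) x hs]
  simp only [T_inv hs]

theorem map_T (x : E) {s : ℝ} (hs : 0 < s) :
    Measure.map (T x s) (volume : Measure E) = ENNReal.ofReal (s ^ 3) • volume := by
  have h1 : T x s = (fun y => s⁻¹ • y) ∘ (fun y => y - x) := rfl
  have hs' : s⁻¹ ≠ 0 := inv_ne_zero hs.ne'
  rw [h1, ← Measure.map_map (g := fun y : E => s⁻¹ • y) (f := fun y : E => y - x)
    (measurable_const_smul _) (by fun_prop)]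
  have h2 : Measure.map (fun y : E => y - x) volume = volume :=
    (measurePreserving_sub_right volume x).map_eq
  rw [h2, Measure.map_addHaar_smul volume hs']
  congr 2
  rw [abs_of_nonneg (by positivity)]
  simp

theorem qmp (x : E) {s : ℝ} (hs : 0 < s) :
    Measure.QuasiMeasurePreserving (T x s) (volume : Measure E) volume :=
  ⟨(cont_T x s).measurable, by rw [map_T x hs]; exact Measure.smul_absolutelyContinuous⟩

theorem ae_T (x : E) {s : ℝ} (hs : 0 < s) {P : E → Prop} (h : ∀ᵐ z, P z) : ∀ᵐ y, P (T x s y) :=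
  (qmp x hs).ae h

theorem memLp_T {r : E → E} (hr : MemLp r 2) (x : E) {s : ℝ} (hs : 0 < s) :
    MemLp (fun y => r (T x s y)) 2 := by
  have h1 : MemLp r 2 (Measure.map (T x s) (volume : Measure E)) := by
    rw [map_T x hs]
    exact hr.smul_measure ENNReal.ofReal_ne_top
  exact h1.comp_of_map (cont_T x s).aemeasurable

theorem bl_eq (u : E → E) (x : E) {s : ℝ} (hs : 0 < s) :
    bl u x s = fun z => u (T (-(s⁻¹ • x)) s⁻¹ z) := by
  funext z
  unfold bl T
  rw [inv_inv, sub_neg_eq_add, smul_add, smul_smul, mul_inv_cancel₀ hs.ne', one_smul, add_comm]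

theorem bl_memLp {u : E → E} (hu : MemLp u 2) (x : E) {s : ℝ} (hs : 0 < s) :
    MemLp (bl u x s) 2 := by
  rw [bl_eq u x hs]
  exact memLp_T hu _ (inv_pos.2 hs)

theorem ip_T (f g : E → E) (x : E) {s : ℝ} (hs : 0 < s) :
    ip (fun y => f (T x s y)) g = s ^ 3 * ip f (bl g x s) := by
  unfold ip
  rw [cv' _ x hs]
  simp only [T_inv' hs, smul_eq_mul]
  rfl

theorem sq_T (r : E → E) (x : E) {s : ℝ} (hs : 0 < s) :
    sq (fun y => r (T x s y)) = s ^ 3 * sq r := by
  unfold Pool.Agent.Helper38.Curl.sq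
  exact cv (fun z => ‖r z‖ ^ 2) x hs

theorem sq_scale (r : E → E) (x : E) {s : ℝ} (hs : 0 < s) :
    sq (fun y => r (s⁻¹ • (y - x))) = s ^ 3 * sq r := sq_T r x hs

theorem ip_scale (u r : E → E) (x : E) {s : ℝ} (hs : 0 < s) :
    ip u (fun y => r (s⁻¹ • (y - x))) = s ^ 3 * ip (bl u x s) r := by
  rw [ip_comm, ip_comm (bl u x s)]
  exact ip_T r u x hs

theorem sqOn_bl (u : E → E) (x z : E) {s : ℝ} (hs : 0 < s) (R : ℝ) :
    sqOn (ball z R) (bl u x s) = (s ^ 3)⁻¹ * sqOn (ball (x + s • z) (s * R)) u := by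
  unfold sqOn
  rw [← integral_indicator measurableSet_ball, ← integral_indicator measurableSet_ball,
    cv' ((ball (x + s • z) (s * R)).indicator _) x hs, smul_eq_mul, ← mul_assoc,
    inv_mul_cancel₀ (by positivity), one_mul]
  congr 1
  funext w
  have h : x + s • w ∈ ball (x + s • z) (s * R) ↔ w ∈ ball z R := by
    rw [mem_ball, mem_ball, dist_add_left, dist_smul₀, Real.norm_eq_abs, abs_of_pos hs]
    exact mul_lt_mul_iff_right₀ hs
  by_cases hw : w ∈ ball z R
  · rw [indicator_of_mem hw, indicator_of_mem (h.2 hw)]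
    rfl
  · rw [indicator_of_notMem hw, indicator_of_notMem (fun hc => hw (h.1 hc))]

theorem real_T {S : Set E} (hS : MeasurableSet S) (x : E) {s : ℝ} (hs : 0 < s) :
    volume.real (T x s ⁻¹' S) = s ^ 3 * volume.real S := by
  have h1 := map_T x hs
  have h2 : volume (T x s ⁻¹' S) = ENNReal.ofReal (s ^ 3) * volume S := by
    rw [← Measure.map_apply (cont_T x s).measurable hS, h1]
    rfl
  rw [measureReal_def, h2, ENNReal.toReal_mul, ENNReal.toReal_ofReal (by positivity),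
    measureReal_def]

theorem fderiv_aff {F : Type*} [NormedAddCommGroup F] [NormedSpace ℝ F] {φ : E → F}
    (hφ : Differentiable ℝ φ) (x : E) (s : ℝ) (z v : E) :
    fderiv ℝ (fun w => φ (x + s • w)) z v = s • fderiv ℝ φ (x + s • z) v := by
  have h1 : HasFDerivAt (fun w : E => x + s • w) (s • ContinuousLinearMap.id ℝ E) z :=
    ((hasFDerivAt_id z).const_smul s).const_add x
  have h2 := (hφ (x + s • z)).hasFDerivAt.comp z h1
  have h3 : fderiv ℝ (fun w => φ (x + s • w)) z = _ := h2.fderiv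
  rw [h3]
  simp

theorem contDiff_aff {F : Type*} [NormedAddCommGroup F] [NormedSpace ℝ F] {φ : E → F}
    (hφ : ContDiff ℝ ∞ φ) (x : E) (s : ℝ) : ContDiff ℝ ∞ (fun w => φ (x + s • w)) :=
  hφ.comp (by fun_prop)

theorem compSupp_aff {F : Type*} [NormedAddCommGroup F] [NormedSpace ℝ F] {φ : E → F}
    (hφ : HasCompactSupport φ) (x : E) {s : ℝ} (hs : 0 < s) :
    HasCompactSupport (fun w => φ (x + s • w)) := by
  have h1 : IsCompact (T x s '' tsupport φ) := IsCompact.image hφ (cont_T x s)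
  refine h1.of_isClosed_subset (isClosed_tsupport _) (closure_minimal ?_ h1.isClosed)
  intro z hz
  exact ⟨x + s • z, subset_tsupport _ hz, T_inv' hs x z⟩

theorem test_aff {φ : E → E} (h : Test φ) (x : E) {s : ℝ} (hs : 0 < s) : Test (bl φ x s) :=
  ⟨contDiff_aff h.1 x s, compSupp_aff h.2 x hs⟩

theorem curl_aff {φ : E → E} (h : ContDiff ℝ ∞ φ) (x : E) (s : ℝ) (z : E) :
    curl (bl φ x s) z = s • curl φ (x + s • z) := by
  have hd : Differentiable ℝ φ := h.differentiable (by simp)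
  have h1 : ∀ i j, pd (bl φ x s) i j z = s * pd φ i j (x + s • z) := by
    intro i j
    unfold pd
    have : bl φ x s = fun w => φ (x + s • w) := rfl
    rw [this, fderiv_aff hd]
    simp
  apply ext3 <;>
    simp only [curl_apply_zero, curl_apply_one, curl_apply_two, h1, PiLp.smul_apply,
      smul_eq_mul] <;> ring

theorem vanOff_T {C : Set E} {r : E → E} (h : VanOff C r) (x : E) {s : ℝ} (hs : 0 < s) :
    VanOff (T x s ⁻¹' C) (fun y => r (T x s y)) := by
  filter_upwards [ae_T x hs h] with y hy hyC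
  exact hy hyC

theorem vanOff_T_ball {ρ : ℝ} {r : E → E} (h : VanOff (closedBall 0 ρ) r) (x : E) {s : ℝ}
    (hs : 0 < s) : VanOff (closedBall 0 (‖x‖ + s * ρ)) (fun y => r (T x s y)) := by
  refine (vanOff_T h x hs).mono ?_
  intro y hy
  rw [mem_preimage, mem_closedBall_zero_iff] at hy
  rw [mem_closedBall_zero_iff]
  calc ‖y‖ = ‖x + s • T x s y‖ := by rw [T_inv hs]
    _ ≤ ‖x‖ + ‖s • T x s y‖ := norm_add_le _ _
    _ = ‖x‖ + s * ‖T x s y‖ := by rw [norm_smul, Real.norm_eq_abs, abs_of_pos hs]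
    _ ≤ ‖x‖ + s * ρ := by gcongr

theorem Pot_scale {b r : E → E} (hp : Pot b r) (x : E) {s : ℝ} (hs : 0 < s) :
    Pot (fun y => s • b (s⁻¹ • (y - x))) (fun y => r (s⁻¹ • (y - x))) where
  memLp₁ := (memLp_T hp.memLp₁ x hs).const_smul s
  memLp₂ := memLp_T hp.memLp₂ x hs
  bdd := by
    obtain ⟨R, h1, h2⟩ := hp.bdd
    exact ⟨‖x‖ + s * R, (vanOff_T_ball h1 x hs).smul s, vanOff_T_ball h2 x hs⟩
  weak := fun φ hφ => by
    have h1 := ip_T b (curl φ) x hs
    have h2 := ip_T r φ x hs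
    have h3 : curl (bl φ x s) = fun z => s • bl (curl φ) x s z := by
      funext z
      exact curl_aff hφ.1 x s z
    have h4 := hp.weak _ (test_aff hφ x hs)
    rw [h3, ip_smul_right] at h4
    rw [ip_smul_left]
    change s * ip (fun y => b (T x s y)) (curl φ) = ip (fun y => r (T x s y)) φ
    rw [h1, h2, ← h4]
    ring

theorem bl_divFree {u : E → E} (hu : ∀ η, TestF η → ∫ x, fderiv ℝ η x (u x) = 0) (x : E) {s : ℝ}
    (hs : 0 < s) (η : E → ℝ) (hη : TestF η) : ∫ z, fderiv ℝ η z (bl u x s z) = 0 := by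
  have hs' : 0 < s⁻¹ := inv_pos.2 hs
  have hd : Differentiable ℝ η := hη.1.differentiable (by simp)
  have hT : ∀ y, -(s⁻¹ • x) + s⁻¹ • y = T x s y := by
    intro y
    unfold T
    rw [smul_sub]
    abel
  have h1 : TestF (fun y => η (-(s⁻¹ • x) + s⁻¹ • y)) :=
    ⟨contDiff_aff hη.1 _ _, compSupp_aff hη.2 _ hs'⟩
  have h2 := hu _ h1
  have h2a : ∀ y v, fderiv ℝ (fun y => η (-(s⁻¹ • x) + s⁻¹ • y)) y v
      = s⁻¹ * fderiv ℝ η (T x s y) v := by
    intro y v
    rw [fderiv_aff hd, hT, smul_eq_mul]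
  simp only [h2a] at h2
  rw [integral_const_mul] at h2
  have h3 : ∫ y, fderiv ℝ η (T x s y) (u y) = 0 := by
    rcases mul_eq_zero.1 h2 with h | h
    · exact absurd h hs'.ne'
    · exact h
  rw [cv' _ x hs] at h3
  simp only [T_inv' hs, smul_eq_mul] at h3
  rcases mul_eq_zero.1 h3 with h | h
  · exact absurd h (by positivity)
  · exact h

theorem scale_in (hM : MolT) {Ω : Set E} {u a : E → E} {Λ : ℝ} (hc : Crit Ω u a Λ) {b r : E → E}
    (hp : Pot b r) (x : E) {s : ℝ} (hs : 0 < s) (hv : VanOff {z | x + s • z ∈ closure Ω} r) :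
    s * ip (bl u x s) b = Λ * ip (bl u x s) r := by
  have hv' : VanOff (closure Ω) (fun y => r (s⁻¹ • (y - x))) := by
    refine (vanOff_T hv x hs).mono ?_
    intro y hy
    rw [mem_preimage, Set.mem_ofPred_eq, T_inv hs] at hy
    exact hy
  have h1 := var_in hM hc (Pot_scale hp x hs) hv'
  rw [ip_smul_right, ip_scale u b x hs, ip_scale u r x hs] at h1
  have h2 : 0 < s ^ 3 := by positivity
  have h3 : s ^ 3 * (s * ip (bl u x s) b) = s ^ 3 * (Λ * ip (bl u x s) r) := by linarith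
  exact mul_left_cancel₀ h2.ne' h3

theorem ip_TT (r b : E → E) (x : E) {s : ℝ} (hs : 0 < s) :
    ip (fun y => r (s⁻¹ • (y - x))) (fun y => s • b (s⁻¹ • (y - x))) = s ^ 3 * (s * ip r b) := by
  rw [ip_smul_right]
  have h1 := ip_T r (fun y => b (T x s y)) x hs
  have h2 : bl (fun y => b (T x s y)) x s = b := by
    funext z
    unfold bl
    simp only [T_inv' hs]
  rw [h2] at h1
  change s * ip (fun y => r (T x s y)) (fun y => b (T x s y)) = _
  rw [h1]; ring

theorem scale_out (hM : MolT) {Ω : Set E} {u a : E → E} {Λ : ℝ} (hc : Crit Ω u a Λ) {b r : E → E}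
    (hp : Pot b r) (x : E) {s : ℝ} (hs : 0 < s) {Q : Set E} (hQ : IsCompact Q) (hv : VanOff Q r) :
    2 * (s * ip (bl u x s) b - Λ * ip (bl u x s) r)
      ≤ Λ / 3 * volume.real (Q \ {z | x + s • z ∈ closure Ω}) * (√3 + √(s ^ 3 * sq r)) ^ 2
        + Λ * sq r + s * |ip r b| := by
  have hpre : T x s ⁻¹' Q = (fun z => x + s • z) '' Q := by
    ext y
    constructor
    · intro hy
      exact ⟨T x s y, hy, T_inv hs x y⟩
    · rintro ⟨z, hz, rfl⟩
      rw [mem_preimage]
      simpa only [T_inv' hs] using hz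
  have hQ' : IsCompact (T x s ⁻¹' Q) := by
    rw [hpre]
    exact hQ.image (continuous_const.add (continuous_id.const_smul s))
  have hps := Pot_scale hp x hs
  have h1 := var_out hM hc hps hQ' (vanOff_T hv x hs)
  have hset : T x s ⁻¹' Q \ closure Ω = T x s ⁻¹' (Q \ {z | x + s • z ∈ closure Ω}) := by
    ext y
    simp only [Set.mem_sdiff, mem_preimage, Set.mem_ofPred_eq, T_inv hs]
  have hmeas : MeasurableSet (Q \ {z | x + s • z ∈ closure Ω}) := by
    refine hQ.measurableSet.diff (IsClosed.measurableSet ?_)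
    exact isClosed_closure.preimage (continuous_const.add (continuous_id.const_smul s))
  have hle : √(sq (fun y => u y + r (s⁻¹ • (y - x)))) ≤ √3 + √(s ^ 3 * sq r) := by
    have := sqrt_sq_add_le hc.pot.memLp₂ hps.memLp₂
    rwa [hc.norm, sq_scale r x hs] at this
  have hle2 : sq (fun y => u y + r (s⁻¹ • (y - x))) ≤ (√3 + √(s ^ 3 * sq r)) ^ 2 := by
    have h0 : 0 ≤ sq (fun y => u y + r (s⁻¹ • (y - x))) := sq_nonneg' _
    calc sq (fun y => u y + r (s⁻¹ • (y - x)))
        = (√(sq (fun y => u y + r (s⁻¹ • (y - x))))) ^ 2 := (Real.sq_sqrt h0).symm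
      _ ≤ _ := pow_le_pow_left₀ (Real.sqrt_nonneg _) hle 2
  rw [hset, real_T hmeas x hs, ip_TT r b x hs, ip_smul_right, ip_scale u b x hs,
    ip_scale u r x hs, sq_scale r x hs] at h1
  have hs3 : 0 < s ^ 3 := by positivity
  set M := volume.real (Q \ {z | x + s • z ∈ closure Ω}) with hM
  have hM0 : 0 ≤ M := measureReal_nonneg
  have h2 : Λ / 3 * (s ^ 3 * M) * sq (fun y => u y + r (s⁻¹ • (y - x)))
      ≤ Λ / 3 * (s ^ 3 * M) * (√3 + √(s ^ 3 * sq r)) ^ 2 := by
    have : 0 ≤ Λ / 3 * (s ^ 3 * M) := by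
      have := hc.pos
      positivity
    exact mul_le_mul_of_nonneg_left hle2 this
  have h3 : -(s ^ 3 * (s * ip r b)) ≤ s ^ 3 * (s * |ip r b|) := by
    have h4 : -ip r b ≤ |ip r b| := neg_le_abs _
    have h5 : 0 ≤ s ^ 3 * s := by positivity
    nlinarith
  have h6 : s ^ 3 * (2 * (s * ip (bl u x s) b - Λ * ip (bl u x s) r))
      ≤ s ^ 3 * (Λ / 3 * M * (√3 + √(s ^ 3 * sq r)) ^ 2 + Λ * sq r + s * |ip r b|) := by
    nlinarith
  exact le_of_mul_le_mul_left h6 hs3

theorem scale_needle (hM : MolT) {Ω : Set E} {u a : E → E} {Λ : ℝ} (hc : Crit Ω u a Λ) {b r : E → E}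
    (hp : Pot b r) (x : E) {s : ℝ} (hs : 0 < s) (hv : VanOff {z | x + s • z ∈ closure Ω} r)
    (h3 : s ^ 3 * sq r ≤ 3) {Z : Set E} (hZ : IsOpen Z) (hZΩ : ∀ z ∈ Z, x + s • z ∈ Ω)
    (h0 : ∀ᵐ z, z ∈ Z → bl u x s z + r z = 0) :
    Λ / 3 * volume.real Z * (√3 - √(s ^ 3 * sq r)) ^ 2 ≤ Λ * sq r + s * |ip r b| := by
  have hv' : VanOff (closure Ω) (fun y => r (s⁻¹ • (y - x))) := by
    refine (vanOff_T hv x hs).mono ?_
    intro y hy
    rw [mem_preimage, Set.mem_ofPred_eq, T_inv hs] at hy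
    exact hy
  have hps := Pot_scale hp x hs
  have hZ' : IsOpen (T x s ⁻¹' Z) := hZ.preimage (cont_T x s)
  have hZΩ' : T x s ⁻¹' Z ⊆ Ω := by
    intro y hy
    have := hZΩ _ hy
    rwa [T_inv hs] at this
  have h0' : ∀ᵐ y, y ∈ T x s ⁻¹' Z → u y + r (s⁻¹ • (y - x)) = 0 := by
    filter_upwards [ae_T x hs h0] with y hy hyZ
    have h1 := hy hyZ
    unfold bl at h1
    rw [T_inv hs] at h1
    exact h1
  have h1 := var_needle hM hc hps hv' hZ' hZΩ' h0'
  have hge : √3 ≤ √(sq (fun y => u y + r (s⁻¹ • (y - x)))) + √(s ^ 3 * sq r) := by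
    have h4 := sqrt_sq_sub_le (v := fun y => u y + r (s⁻¹ • (y - x)))
      (w := fun y => r (s⁻¹ • (y - x))) (hc.pot.memLp₂.add hps.memLp₂) hps.memLp₂
    simp only [add_sub_cancel_right] at h4
    rwa [hc.norm, sq_scale r x hs] at h4
  have hle : √(s ^ 3 * sq r) ≤ √3 := Real.sqrt_le_sqrt h3
  have hge2 : (√3 - √(s ^ 3 * sq r)) ^ 2 ≤ sq (fun y => u y + r (s⁻¹ • (y - x))) := by
    have h0 : 0 ≤ sq (fun y => u y + r (s⁻¹ • (y - x))) := sq_nonneg' _
    calc (√3 - √(s ^ 3 * sq r)) ^ 2 ≤ (√(sq (fun y => u y + r (s⁻¹ • (y - x))))) ^ 2 :=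
          pow_le_pow_left₀ (by linarith) (by linarith) 2
      _ = _ := Real.sq_sqrt h0
  rw [real_T hZ.measurableSet x hs, ip_TT r b x hs, sq_scale r x hs] at h1
  have hs3 : 0 < s ^ 3 := by positivity
  set M := volume.real Z with hM
  have hM0 : 0 ≤ M := measureReal_nonneg
  have h2 : Λ / 3 * (s ^ 3 * M) * (√3 - √(s ^ 3 * sq r)) ^ 2
      ≤ Λ / 3 * (s ^ 3 * M) * sq (fun y => u y + r (s⁻¹ • (y - x))) := by
    have : 0 ≤ Λ / 3 * (s ^ 3 * M) := by
      have := hc.pos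
      positivity
    exact mul_le_mul_of_nonneg_left hge2 this
  have h5 : -(s ^ 3 * (s * ip r b)) ≤ s ^ 3 * (s * |ip r b|) := by
    have h4 : -ip r b ≤ |ip r b| := neg_le_abs _
    have h5 : 0 ≤ s ^ 3 * s := by positivity
    nlinarith
  have h6 : s ^ 3 * (Λ / 3 * M * (√3 - √(s ^ 3 * sq r)) ^ 2)
      ≤ s ^ 3 * (Λ * sq r + s * |ip r b|) := by
    nlinarith
  exact le_of_mul_le_mul_left h6 hs3

end Pool.Agent.Helper36.Curl
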